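import Pool.Agent.H315R2.EB.Stubs

/-!
# TRA: the isomorphism between two apartments given by two bases
-/

namespace Pool.Agent.H797R2.EB

open Module Pool.Agent.H315R2.EB
open scoped Pointwise

theorem TRA_proof (_hV : St_VAL) (_hH : St_HOM) (hL : St_LAM) (hT : St_ACT) : St_TRA := by
  intro O K V _ _ _ _ _ _ _ _ _ _ _ p hp ι _ b b'
  obtain ⟨T, hT⟩ := hT O K V
  have hl1 := hL O K V p hp ι b
  have hl2 := hL O K V p hp ι b'
  have hmap : ∀ a : ι → ℤ, (Lam O p b a).map
      (((b.equiv b' (Equiv.refl ι)).restrictScalars O : V ≃ₗ[O] V) : V →ₗ[O] V) =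
        Lam O p b' a := by
    intro a
    unfold Lam
    rw [Submodule.map_span]
    congr 1
    rw [← Set.range_comp]
    congr 1
    funext i
    have h1 : (b.equiv b' (Equiv.refl ι)) (p ^ a i • b i) = p ^ a i • b' i := by
      have h2 : (p ^ a i • b i : V) = ((p ^ a i : Kˣ) : K) • b i := rfl
      have h3 : (p ^ a i • b' i : V) = ((p ^ a i : Kˣ) : K) • b' i := rfl
      rw [h2, h3, map_smul]
      simp
    exact h1
  have hTg : ∀ (L L' : Lat O K V) (a : ι → ℤ), L.1 = Lam O p b a → L'.1 = Lam O p b' a →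
      (T (b.equiv b' (Equiv.refl ι))).1 (cls L) = cls L' := by
    intro L L' a h1 h2
    exact hT _ L L' (by rw [h1, h2, hmap])
  have hmem : ∀ x, x ∈ apt O p b ↔ (T (b.equiv b' (Equiv.refl ι))).1 x ∈ apt O p b' := by
    intro x
    constructor
    · rintro ⟨L, h1, a, ha⟩
      refine ⟨⟨Lam O p b' a, hl2.1 a⟩, ?_, a, rfl⟩
      rw [← h1]
      exact (hTg _ _ a ha rfl).symm
    · rintro ⟨L', h1, a, ha⟩
      refine ⟨⟨Lam O p b a, hl1.1 a⟩, ?_, a, rfl⟩
      apply (T (b.equiv b' (Equiv.refl ι))).1.injective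
      rw [← h1]
      exact hTg _ _ a rfl ha
  refine ⟨⟨(T (b.equiv b' (Equiv.refl ι))).1.subtypeEquiv hmem, ?_⟩, ?_⟩
  · intro s
    have h1 := (T (b.equiv b' (Equiv.refl ι))).2
      (s.map (Function.Embedding.subtype (· ∈ apt O p b)))
    have h2 : (s.map (Function.Embedding.subtype (· ∈ apt O p b))).map
        ((T (b.equiv b' (Equiv.refl ι))).1 : Equiv.Perm (Vert O K V)).toEmbedding =
        (s.map ((T (b.equiv b' (Equiv.refl ι))).1.subtypeEquiv hmem).toEmbedding).map
          (Function.Embedding.subtype (· ∈ apt O p b')) := by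
      rw [Finset.map_map, Finset.map_map]
      rfl
    rw [h2] at h1
    exact h1
  · intro x L L' a h1 h2 h3
    change (T (b.equiv b' (Equiv.refl ι))).1 x.1 = cls L'
    rw [← h1]
    exact hTg L L' a h2 h3

end Pool.Agent.H797R2.EB
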